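import Pool.Agent.V8H96.XS.TruncFin
import Pool.Agent.V8H98.PN10

set_option autoImplicit false

open MeasureTheory Set

/-!
Site percolation on `Z^d`, `d ≥ 3`: the truncated correlation length at a parameter `p > p_c` is at
most `exp (C log (2 / (p - p_c)) / (p - p_c))`.
-/

namespace Pool.Agent.Results.MP_e13933_pr.CorrelationLengthAbove

noncomputable section

/-- Vertices of `Z^d`. -/
abbrev V (d : ℕ) : Type := Fin d → ℤ

/-- The graph of the open vertices: two vertices at Euclidean distance one are joined if both are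
open (`ω x = true`). -/
def openGraph {d : ℕ} (ω : V d → Bool) : SimpleGraph (V d) where
  Adj x y := ∑ i, |x i - y i| = 1 ∧ ω x = true ∧ ω y = true
  symm := ⟨fun x y ⟨h1, h2, h3⟩ => ⟨by simpa only [abs_sub_comm] using h1, h3, h2⟩⟩
  loopless := ⟨fun x h => by simpa using h.1⟩

/-- The open cluster of `x` (empty if `x` is closed). -/
def cluster {d : ℕ} (ω : V d → Bool) (x : V d) : Set (V d) :=
  {y | ω x = true ∧ (openGraph ω).Reachable x y}

/-- Site percolation with parameter `p`: all vertices are open with probability `p`,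
independently. -/
def P (d : ℕ) (p : unitInterval) : Measure (V d → Bool) :=
  Measure.infinitePi (fun _ : V d =>
    ENNReal.ofReal (p : ℝ) • Measure.dirac true + ENNReal.ofReal (1 - (p : ℝ)) • Measure.dirac false)

/-- The percolation probability `θ_d(p)`. -/
def theta (d : ℕ) (p : unitInterval) : ℝ := (P d p).real {ω | (cluster ω 0).Infinite}

/-- The critical point `p_c(d)`, the supremum of the parameters with `θ_d(p) = 0`. -/
def pc (d : ℕ) : unitInterval :=
  ⟨sSup {t : ℝ | ∃ q : unitInterval, (q : ℝ) = t ∧ theta d q = 0}, by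
    constructor
    · apply Real.sSup_nonneg
      rintro x ⟨q, rfl, _⟩
      exact q.2.1
    · apply Real.sSup_le
      · rintro x ⟨q, rfl, _⟩
        exact q.2.2
      · exact zero_le_one⟩

/-- The truncated one-arm event: the open cluster of the origin is finite and contains a vertex at
distance at least `n` from the origin, in the sup norm. -/
def FiniteArm (d n : ℕ) : Set (V d → Bool) :=
  {ω | (cluster ω 0).Finite ∧ ∃ y ∈ cluster ω 0, ∃ i, (n : ℤ) ≤ |y i|}

lemma nd_mem {d : ℕ} {ω : V d → Bool} {x y : V d} :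
    (∀ c ∈ (Pool.Agent.Y990.CB.siteM d).nd x y, ω c = true) ↔ ω x = true ∧ ω y = true := by
  show (∀ c : V d, c ∈ ({x, y} : Finset (V d)) → ω c = true) ↔ _
  simp only [Finset.mem_insert, Finset.mem_singleton, forall_eq_or_imp, forall_eq]

open Pool.Agent.Y990.CB in
lemma graph_eq {d : ℕ} (ω : V d → Bool) : openGraph ω = G (siteM d) ω univ := by
  ext x y
  show (∑ i, |x i - y i| = 1 ∧ ω x = true ∧ ω y = true) ↔
    (∑ i, |x i - y i| = 1 ∧ x ∈ univ ∧ y ∈ univ ∧ ∀ c ∈ (siteM d).nd x y, ω c = true)
  rw [nd_mem]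
  simp only [mem_univ, true_and]

open Pool.Agent.Y990.CB in
lemma cluster_sub {d : ℕ} (ω : V d → Bool) (x : V d) : cluster ω x ⊆ cl (siteM d) ω univ x := by
  rintro y ⟨-, h⟩
  rw [graph_eq] at h
  exact h

open Pool.Agent.Y990.CB in
lemma infinite_iff {d : ℕ} (ω : V d → Bool) (x : V d) :
    (cluster ω x).Infinite ↔ ω ∈ Perc (siteM d) x := by
  constructor
  · intro h
    exact h.mono (cluster_sub ω x)
  · intro h
    have hx : ω x = true := by
      obtain ⟨y, hy, hyx⟩ := Set.Infinite.exists_notMem_finset h {x}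
      have hyx' : y ≠ x := by simpa using hyx
      have hr : (G (siteM d) ω univ).Reachable x y := hy
      obtain ⟨q⟩ := hr
      cases q with
      | nil => exact absurd rfl hyx'
      | cons hadj _ => exact (nd_mem.1 hadj.2.2.2).1
    refine Set.Infinite.mono ?_ h
    intro y hy
    refine ⟨hx, ?_⟩
    rw [graph_eq]
    exact hy

open Pool.Agent.Y990.CB in
lemma P_eq (d : ℕ) (p : unitInterval) : P d p = mu (siteM d) p := rfl

open Pool.Agent.Y990.CB in
lemma theta_eq (d : ℕ) (p : unitInterval) : theta d p = th (siteM d) p := by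
  unfold theta th
  rw [P_eq]
  congr 1
  ext ω
  exact infinite_iff ω 0

open Pool.Agent.Y990.CB in
lemma pc_eq (d : ℕ) : pc d = Pool.Agent.Y990.CB.pc (siteM d) := by
  apply Subtype.ext
  show sSup {t : ℝ | ∃ q : unitInterval, (q : ℝ) = t ∧ theta d q = 0} =
    sSup {x : ℝ | ∃ q : unitInterval, (q : ℝ) = x ∧ th (siteM d) q = 0}
  simp only [theta_eq]

open Pool.Agent.Y990.CB in
lemma arm_le (d n : ℕ) (p : unitInterval) :
    (P d p).real (FiniteArm d n) ≤ Pool.Agent.V8H96.XS.tr d p n := by
  have hfin : IsProbabilityMeasure (P d p) :=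
    inferInstanceAs (IsProbabilityMeasure (mu (siteM d) p))
  have h1 : (P d p).real (FiniteArm d n) ≤ (P d p).real {ω : V d → Bool |
      (cl (siteM d) ω univ 0).Finite ∧ ∃ y ∈ cl (siteM d) ω univ 0, ∃ l, (n : ℤ) ≤ |y l|} := by
    refine measureReal_mono ?_ (measure_ne_top _ _)
    rintro ω ⟨hf, y, hy, i, hi⟩
    refine ⟨hf.subset fun z hz => ?_, y, cluster_sub ω 0 hy, i, hi⟩
    refine ⟨hy.1, ?_⟩
    rw [graph_eq]
    exact hz
  exact h1

/-- **The truncated correlation length above the critical point.**  For every `d ≥ 3` there is a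
constant `C > 0` such that for all `p > p_c` and all `n` the probability that the open cluster of
the origin is finite and contains a vertex at distance at least `n` is at most
`exp (1 - n / exp (C log (2 / (p - p_c)) / (p - p_c)))`. -/
theorem result (d : ℕ) (hd : 3 ≤ d) : ∃ C : ℝ, 0 < C ∧ ∀ p : unitInterval, pc d < p → ∀ n : ℕ,
    (P d p).real (FiniteArm d n) ≤ Real.exp (1 - n / Real.exp
      (C * Real.log (2 / ((p : ℝ) - pc d)) / ((p : ℝ) - pc d))) := by
  obtain ⟨C, hC, h⟩ := Pool.Agent.V8H96.XS.xi_above (d := d) (by omega)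
    (Pool.Agent.V8H98.PN.s_slab hd)
  refine ⟨C, hC, fun p hp n => ?_⟩
  have e : (pc d : ℝ) = Pool.Agent.V8H96.XI.Pc d := by
    rw [pc_eq]
    rfl
  have hp' : Pool.Agent.V8H96.XI.Pc d < p := by
    show _ < (p : ℝ)
    rw [← e]
    exact hp
  have h1 := (arm_le d n p).trans (h p hp' n)
  rw [e, div_eq_mul_inv (n : ℝ), ← Real.exp_neg]
  exact h1

end

end Pool.Agent.Results.MP_e13933_pr.CorrelationLengthAbove
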