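import Pool.Agent.V8H59.MC.Pow
import Pool.Agent.Y990.SH.Main2
import Pool.Agent.Y990.CB.Poly

set_option autoImplicit false

open MeasureTheory Set

/-!
Site percolation on `Z^d`, `d ≥ 2`, at and below the critical point: the number of crossing
clusters.  At every scale either a box is not connected to a comparable distance, or there are many
crossing clusters, with probability bounded away from zero; few crossing clusters at all scales
give a power law for the one-arm probability.
-/

namespace Pool.Agent.Results.MP_e13933_pr.FewCrossingClusters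

noncomputable section

/-- Vertices of `Z^d`. -/
abbrev V (d : ℕ) : Type := Fin d → ℤ

/-- The box of radius `N` around the origin. -/
def box (d N : ℕ) : Set (V d) := {x | ∀ i, |x i| ≤ N}

/-- The boundary of the box of radius `N`: the vertices with sup norm `N`. -/
def sphere (d N : ℕ) : Set (V d) := {x | x ∈ box d N ∧ ∃ i, |x i| = N}

/-- The open subgraph inside the region `S`: two vertices at Euclidean distance one are joined if
both are open (`ω x = true`) and in `S`. -/
def openGraph {d : ℕ} (ω : V d → Bool) (S : Set (V d)) : SimpleGraph (V d) where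
  Adj x y := ∑ i, |x i - y i| = 1 ∧ (x ∈ S ∧ ω x = true) ∧ (y ∈ S ∧ ω y = true)
  symm := ⟨fun x y ⟨h1, h2, h3⟩ => ⟨by simpa only [abs_sub_comm] using h1, h3, h2⟩⟩
  loopless := ⟨fun x h => by simpa using h.1⟩

/-- The open cluster of `x` inside the region `S` (empty if `x` is closed). -/
def cluster {d : ℕ} (ω : V d → Bool) (S : Set (V d)) (x : V d) : Set (V d) :=
  {y | (ω x = true ∧ x ∈ S) ∧ (openGraph ω S).Reachable x y}

/-- Site percolation with parameter `p`: all vertices are open with probability `p`,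
independently. -/
def P (d : ℕ) (p : unitInterval) : Measure (V d → Bool) :=
  Measure.infinitePi (fun _ : V d =>
    ENNReal.ofReal (p : ℝ) • Measure.dirac true + ENNReal.ofReal (1 - (p : ℝ)) • Measure.dirac false)

/-- The percolation probability `θ_d(p)`. -/
def theta (d : ℕ) (p : unitInterval) : ℝ := (P d p).real {ω | (cluster ω univ 0).Infinite}

/-- The critical point `p_c(d)`, the supremum of the parameters with `θ_d(p) = 0`. -/
def pc (d : ℕ) : unitInterval :=
  ⟨sSup {t : ℝ | ∃ q : unitInterval, (q : ℝ) = t ∧ theta d q = 0}, by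
    constructor
    · apply Real.sSup_nonneg
      rintro x ⟨q, rfl, _⟩
      exact q.2.1
    · apply Real.sSup_le
      · rintro x ⟨q, rfl, _⟩
        exact q.2.2
      · exact zero_le_one⟩

/-- The crossing clusters: the open clusters of the box of radius `n` which meet both the box of
radius `k` and the boundary of the box of radius `n`. -/
def crossing (d k n : ℕ) (ω : V d → Bool) : Set (Set (V d)) :=
  {C | ∃ x ∈ box d k, C = cluster ω (box d n) x ∧ (C ∩ sphere d n).Nonempty}

lemma nd_mem {d : ℕ} {ω : V d → Bool} {x y : V d} :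
    (∀ c ∈ (Pool.Agent.Y990.CB.siteM d).nd x y, ω c = true) ↔ ω x = true ∧ ω y = true := by
  show (∀ c : V d, c ∈ ({x, y} : Finset (V d)) → ω c = true) ↔ _
  simp only [Finset.mem_insert, Finset.mem_singleton, forall_eq_or_imp, forall_eq]

open Pool.Agent.Y990.CB in
lemma adj_iff {d : ℕ} (ω : V d → Bool) (S : Set (V d)) (x y : V d) :
    (openGraph ω S).Adj x y ↔ (G (siteM d) ω S).Adj x y := by
  show (∑ i, |x i - y i| = 1 ∧ (x ∈ S ∧ ω x = true) ∧ (y ∈ S ∧ ω y = true)) ↔
    (∑ i, |x i - y i| = 1 ∧ x ∈ S ∧ y ∈ S ∧ ∀ c ∈ (siteM d).nd x y, ω c = true)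
  rw [nd_mem]
  tauto

open Pool.Agent.Y990.CB in
lemma graph_eq {d : ℕ} (ω : V d → Bool) (S : Set (V d)) :
    openGraph ω S = G (siteM d) ω S := by
  ext x y
  exact adj_iff ω S x y

open Pool.Agent.Y990.CB in
lemma cluster_sub {d : ℕ} (ω : V d → Bool) (S : Set (V d)) (x : V d) :
    cluster ω S x ⊆ cl (siteM d) ω S x := by
  rintro y ⟨-, h⟩
  rw [graph_eq] at h
  exact h

open Pool.Agent.Y990.CB in
/-- A vertex connected to a different vertex is open. -/
lemma open_of {d : ℕ} {ω : V d → Bool} {S : Set (V d)} {x y : V d} (hxy : y ≠ x)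
    (hr : (G (siteM d) ω S).Reachable x y) : ω x = true ∧ x ∈ S := by
  obtain ⟨q⟩ := hr
  cases q with
  | nil => exact absurd rfl hxy
  | cons hadj _ => exact ⟨(nd_mem.1 hadj.2.2.2).1, hadj.2.1⟩

open Pool.Agent.Y990.CB in
lemma infinite_iff {d : ℕ} (ω : V d → Bool) (x : V d) :
    (cluster ω univ x).Infinite ↔ ω ∈ Perc (siteM d) x := by
  constructor
  · intro h
    exact h.mono (cluster_sub ω univ x)
  · intro h
    obtain ⟨y, hy, hyx⟩ := Set.Infinite.exists_notMem_finset h {x}
    have hyx' : y ≠ x := by simpa using hyx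
    have hx := open_of hyx' hy
    refine Set.Infinite.mono ?_ h
    intro z hz
    refine ⟨hx, ?_⟩
    rw [graph_eq]
    exact hz

open Pool.Agent.Y990.CB in
lemma P_eq (d : ℕ) (p : unitInterval) : P d p = mu (siteM d) p := rfl

open Pool.Agent.Y990.CB in
lemma theta_eq (d : ℕ) (p : unitInterval) : theta d p = th (siteM d) p := by
  unfold theta th
  rw [P_eq]
  congr 1
  ext ω
  exact infinite_iff ω 0

open Pool.Agent.Y990.CB in
lemma pc_eq (d : ℕ) : pc d = Pool.Agent.Y990.CB.pc (siteM d) := by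
  apply Subtype.ext
  show sSup {t : ℝ | ∃ q : unitInterval, (q : ℝ) = t ∧ theta d q = 0} =
    sSup {x : ℝ | ∃ q : unitInterval, (q : ℝ) = x ∧ th (siteM d) q = 0}
  simp only [theta_eq]

open Pool.Agent.Y990.CB in
lemma box_eq (d N : ℕ) : box d N = Bo (0 : V d) N := by
  ext x
  simp only [box, Bo, mem_ofPred_eq, Pi.zero_apply, sub_zero]

open Pool.Agent.Y990.CB in
lemma sphere_eq (d N : ℕ) : sphere d N = Fr (0 : V d) N := by
  ext x
  simp only [sphere, Fr, box_eq, mem_ofPred_eq, Pi.zero_apply, sub_zero]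

open Pool.Agent.Y990.CB in
/-- Vertices of the small box are not on the boundary of the large box. -/
lemma ne_of_box {d k n : ℕ} (h : k < n) {x y : V d} (hx : x ∈ Bo (0 : V d) k)
    (hy : y ∈ Fr (0 : V d) n) : y ≠ x := by
  rintro rfl
  obtain ⟨i, hi⟩ := hy.2
  have h1 := hx i
  rw [hi] at h1
  have : n ≤ k := by exact_mod_cast h1
  omega

open Pool.Agent.Y990.CB in
/-- The crossing clusters in the terms of the library. -/
lemma cross_of {d k n : ℕ} (h : k < n) (ω : V d → Bool) {x : V d} (hx : x ∈ Bo (0 : V d) k)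
    (ha : Am (siteM d) ω 0 n x) : cluster ω (box d n) x ∈ crossing d k n ω ∧
      cluster ω (box d n) x = cl (siteM d) ω (Bo 0 n) x := by
  obtain ⟨x', hx', hr⟩ := ha
  have ho := open_of (ne_of_box h hx hx') hr
  have e : cluster ω (box d n) x = cl (siteM d) ω (Bo 0 n) x := by
    refine Subset.antisymm ?_ ?_
    · rw [box_eq]
      exact cluster_sub ω _ x
    · intro y hy
      refine ⟨?_, ?_⟩
      · rw [box_eq]; exact ho
      · rw [graph_eq, box_eq]; exact hy
  refine ⟨⟨x, by rw [box_eq]; exact hx, rfl, x', ?_, ?_⟩, e⟩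
  · rw [e]; exact hr
  · rw [sphere_eq]; exact hx'

open Pool.Agent.Y990.CB in
lemma cross_empty {d k n : ℕ} (h : k < n) (ω : V d → Bool) :
    crossing d k n ω = ∅ ↔ ω ∉ Lk (siteM d) (Bo 0 n) (Bo 0 k) (Fr 0 n) := by
  constructor
  · rintro he ⟨x, hx, y, hy, hr⟩
    have := (cross_of h ω hx ⟨y, hy, hr⟩).1
    rw [he] at this
    exact this
  · intro hn
    rw [Set.eq_empty_iff_forall_notMem]
    rintro C ⟨x, hx, rfl, y, hy, hs⟩
    refine hn ⟨x, by rw [← box_eq]; exact hx, y, by rw [← sphere_eq]; exact hs, ?_⟩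
    have := cluster_sub ω _ x hy
    rw [box_eq] at this
    exact this

open Pool.Agent.Y990.CB in
lemma cross_XS {d k n : ℕ} (h : k < n) (ω : V d → Bool) :
    crossing d k n ω = Pool.Agent.V8H59.MC.XS (siteM d) ω k n := by
  ext C
  constructor
  · rintro ⟨x, hx, rfl, y, hy, hs⟩
    rw [box_eq] at hx
    rw [sphere_eq] at hs
    have g := cluster_sub ω _ x hy
    rw [box_eq] at g
    exact ⟨x, hx, ⟨y, hs, g⟩, (cross_of h ω hx ⟨y, hs, g⟩).2⟩
  · rintro ⟨x, hx, ha, rfl⟩
    have h1 := cross_of h ω hx ha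
    rw [← h1.2]
    exact h1.1

open Pool.Agent.Y990.CB in
lemma arm_eq {d N : ℕ} (hN : 1 ≤ N) :
    {ω : V d → Bool | (cluster ω (box d N) 0 ∩ sphere d N).Nonempty} =
      {ω | Am (siteM d) ω 0 N 0} := by
  ext ω
  constructor
  · rintro ⟨y, hy, hs⟩
    rw [sphere_eq] at hs
    have g := cluster_sub ω _ 0 hy
    rw [box_eq] at g
    exact ⟨y, hs, g⟩
  · intro ha
    have h1 := cross_of (k := 0) (by omega : 0 < N) ω (self_mem_Bo 0 0) ha
    obtain ⟨y, hy, hr⟩ := ha
    refine ⟨y, ?_, ?_⟩
    · rw [h1.2]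
      exact hr
    · rw [sphere_eq]
      exact hy

/-- **Few crossing clusters.**  Let `d ≥ 2`, `M ≥ 1` and `R ≥ 2`.  There are `K, C ≥ 1` and
`c, η > 0` such that for every `p ≤ p_c`:

* for all `n ≥ 1` the sum of the following three probabilities is at least `c`: no open cluster of
  the box of radius `C n` meets both the box of radius `n` and the boundary; more than `M` open
  clusters of the box of radius `R n` meet both the box of radius `n` and the boundary; the same
  with `K n` in the place of `n`;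
* if for all `n ≥ n₀` with probability at least `1 - c / 3` at most `M` open clusters of the box of
  radius `R n` meet both the box of radius `n` and the boundary, then the probability that the
  origin is connected to distance `N` is at most `2 (n₀ / N) ^ η`, for all `N ≥ 1`. -/
theorem result (d M R : ℕ) (hd : 2 ≤ d) (hM : 1 ≤ M) (hR : 2 ≤ R) :
    ∃ (K C : ℕ) (c η : ℝ), 1 ≤ K ∧ 2 ≤ C ∧ 0 < c ∧ 0 < η ∧ ∀ p : unitInterval, p ≤ pc d →
    (∀ n : ℕ, 1 ≤ n →
      c ≤ (P d p).real {ω | crossing d n (C * n) ω = ∅} +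
        (P d p).real {ω | M < (crossing d n (R * n) ω).ncard} +
        (P d p).real {ω | M < (crossing d (K * n) (R * (K * n)) ω).ncard}) ∧
    ∀ n₀ : ℕ, 1 ≤ n₀ →
      (∀ n : ℕ, n₀ ≤ n → (P d p).real {ω | M < (crossing d n (R * n) ω).ncard} ≤ c / 3) →
      ∀ N : ℕ, 1 ≤ N → (P d p).real {ω | (cluster ω (box d N) 0 ∩ sphere d N).Nonempty} ≤
        2 * ((n₀ : ℝ) / N) ^ η := by
  obtain ⟨K, C, c, η, hK, hC, hc, hη, h⟩ := Pool.Agent.V8H59.MC.few hd
    (Pool.Agent.Y990.CB.siteM d) Pool.Agent.Y990.CB.nd_site (Pool.Agent.Y990.SH.fu_site d) M R hM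
    (by omega)
  have hlt : ∀ a n : ℕ, 2 ≤ a → 1 ≤ n → n < a * n := by
    intro a n ha hn
    have : 2 * n ≤ a * n := Nat.mul_le_mul_right n ha
    omega
  have hX : ∀ (p : unitInterval) (n : ℕ), 1 ≤ n →
      (P d p).real {ω | M < (crossing d n (R * n) ω).ncard} =
        (Pool.Agent.Y990.CB.mu (Pool.Agent.Y990.CB.siteM d) p).real
          (Pool.Agent.V8H59.MC.XE (Pool.Agent.Y990.CB.siteM d) M n (R * n)) := by
    intro p n hn
    rw [P_eq]
    have e : {ω : V d → Bool | M < (crossing d n (R * n) ω).ncard} =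
        Pool.Agent.V8H59.MC.XE (Pool.Agent.Y990.CB.siteM d) M n (R * n) := by
      ext ω
      show M < (crossing d n (R * n) ω).ncard ↔
        M < (Pool.Agent.V8H59.MC.XS (Pool.Agent.Y990.CB.siteM d) ω n (R * n)).ncard
      rw [cross_XS (hlt R n hR hn)]
    rw [e]
    rfl
  refine ⟨K, C, c, η, hK, by omega, hc, hη, ?_⟩
  intro p hp
  obtain ⟨h1, h2⟩ := h p (by rw [← pc_eq]; exact hp)
  refine ⟨?_, ?_⟩
  · intro n hn
    have hKn : 1 ≤ K * n := Nat.mul_pos (by omega) (by omega)
    have h3 := h1 n hn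
    rw [hX p n hn, hX p (K * n) hKn]
    have e : (P d p).real {ω | crossing d n (C * n) ω = ∅} =
        Pool.Agent.Y990.OA.hol (Pool.Agent.Y990.CB.siteM d) p n (C * n) := by
      have e1 : {ω : V d → Bool | crossing d n (C * n) ω = ∅} =
          {ω | ω ∉ Pool.Agent.Y990.CB.Lk (Pool.Agent.Y990.CB.siteM d)
            (Pool.Agent.Y990.CB.Bo 0 (C * n)) (Pool.Agent.Y990.CB.Bo 0 n)
            (Pool.Agent.Y990.CB.Fr 0 (C * n))} := by
        ext ω
        exact cross_empty (hlt C n (by omega) hn) ω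
      rw [e1, P_eq]
      rfl
    rw [e]
    exact h3
  · intro n₀ hn₀ hs N hN
    rw [arm_eq hN, P_eq]
    refine h2 n₀ hn₀ (fun n hn => ?_) N hN
    rw [← hX p n (by omega)]
    exact hs n hn

end

end Pool.Agent.Results.MP_e13933_pr.FewCrossingClusters
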