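import Pool.Agent.V8H98.PN9

set_option autoImplicit false

open MeasureTheory Set

/-!
Site percolation on `Z^d`, `d ≥ 3`: the critical point of the slab `Z^2 × [-L, L]^(d - 2)` is at
most `p_c + C log log L / log L`.
-/

namespace Pool.Agent.Results.MP_e13933_pr.SlabCriticalPoint

noncomputable section

/-- Vertices of `Z^d`. -/
abbrev V (d : ℕ) : Type := Fin d → ℤ

/-- The graph of the open vertices of the region `R`: two vertices of `R` at Euclidean distance one
are joined if both are open (`ω x = true`). -/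
def openGraph {d : ℕ} (R : Set (V d)) (ω : V d → Bool) : SimpleGraph (V d) where
  Adj x y := ∑ i, |x i - y i| = 1 ∧ (x ∈ R ∧ ω x = true) ∧ (y ∈ R ∧ ω y = true)
  symm := ⟨fun x y ⟨h1, h2, h3⟩ => ⟨by simpa only [abs_sub_comm] using h1, h3, h2⟩⟩
  loopless := ⟨fun x h => by simpa using h.1⟩

/-- The open cluster of `x` in the region `R` (empty if `x` is closed or not in `R`). -/
def cluster {d : ℕ} (R : Set (V d)) (ω : V d → Bool) (x : V d) : Set (V d) :=
  {y | x ∈ R ∧ ω x = true ∧ (openGraph R ω).Reachable x y}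

/-- Site percolation with parameter `p`: all vertices are open with probability `p`,
independently. -/
def P (d : ℕ) (p : unitInterval) : Measure (V d → Bool) :=
  Measure.infinitePi (fun _ : V d =>
    ENNReal.ofReal (p : ℝ) • Measure.dirac true + ENNReal.ofReal (1 - (p : ℝ)) • Measure.dirac false)

/-- The probability that the open cluster of the origin in the region `R` is infinite; for
`R = univ` this is `θ_d(p)`. -/
def theta (d : ℕ) (R : Set (V d)) (p : unitInterval) : ℝ :=
  (P d p).real {ω | (cluster R ω 0).Infinite}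

/-- The critical point of the region `R`, the supremum of the parameters `p` with
`theta d R p = 0`; for `R = univ` this is `p_c(d)`. -/
def pc (d : ℕ) (R : Set (V d)) : ℝ := sSup {t : ℝ | ∃ q : unitInterval, (q : ℝ) = t ∧ theta d R q = 0}

/-- The slab `Z^2 × [-L, L]^(d - 2)`. -/
def slab (d L : ℕ) : Set (V d) := {x | ∀ i : Fin d, 2 ≤ (i : ℕ) → |x i| ≤ L}

lemma nd_mem {d : ℕ} {ω : V d → Bool} {x y : V d} :
    (∀ c ∈ (Pool.Agent.Y990.CB.siteM d).nd x y, ω c = true) ↔ ω x = true ∧ ω y = true := by
  show (∀ c : V d, c ∈ ({x, y} : Finset (V d)) → ω c = true) ↔ _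
  simp only [Finset.mem_insert, Finset.mem_singleton, forall_eq_or_imp, forall_eq]

open Pool.Agent.Y990.CB in
lemma graph_eq {d : ℕ} (R : Set (V d)) (ω : V d → Bool) : openGraph R ω = G (siteM d) ω R := by
  ext x y
  show (∑ i, |x i - y i| = 1 ∧ (x ∈ R ∧ ω x = true) ∧ (y ∈ R ∧ ω y = true)) ↔
    (∑ i, |x i - y i| = 1 ∧ x ∈ R ∧ y ∈ R ∧ ∀ c ∈ (siteM d).nd x y, ω c = true)
  rw [nd_mem]
  tauto

open Pool.Agent.Y990.CB in
lemma cluster_sub {d : ℕ} (R : Set (V d)) (ω : V d → Bool) (x : V d) :
    cluster R ω x ⊆ cl (siteM d) ω R x := by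
  rintro y ⟨-, -, h⟩
  rw [graph_eq] at h
  exact h

open Pool.Agent.Y990.CB in
lemma infinite_iff {d : ℕ} (R : Set (V d)) (ω : V d → Bool) (x : V d) :
    (cluster R ω x).Infinite ↔ (cl (siteM d) ω R x).Infinite := by
  constructor
  · intro h
    exact h.mono (cluster_sub R ω x)
  · intro h
    have hx : x ∈ R ∧ ω x = true := by
      obtain ⟨y, hy, hyx⟩ := Set.Infinite.exists_notMem_finset h {x}
      have hyx' : y ≠ x := by simpa using hyx
      have hr : (G (siteM d) ω R).Reachable x y := hy
      obtain ⟨q⟩ := hr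
      cases q with
      | nil => exact absurd rfl hyx'
      | cons hadj _ => exact ⟨hadj.2.1, (nd_mem.1 hadj.2.2.2).1⟩
    refine Set.Infinite.mono ?_ h
    intro y hy
    refine ⟨hx.1, hx.2, ?_⟩
    rw [graph_eq]
    exact hy

open Pool.Agent.Y990.CB in
lemma P_eq (d : ℕ) (p : unitInterval) : P d p = mu (siteM d) p := rfl

open Pool.Agent.Y990.CB in
lemma theta_eq (d : ℕ) (R : Set (V d)) (p : unitInterval) :
    theta d R p = (mu (siteM d) p).real {ω | (cl (siteM d) ω R 0).Infinite} := by
  unfold theta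
  rw [P_eq]
  congr 1
  ext ω
  exact infinite_iff R ω 0

open Pool.Agent.Y990.CB in
lemma theta_univ (d : ℕ) (p : unitInterval) : theta d univ p = th (siteM d) p := theta_eq d univ p

lemma theta_slab (d L : ℕ) (p : unitInterval) :
    theta d (slab d L) p = (Pool.Agent.R959.GF.ms d p).real (Pool.Agent.V8H98.PN.Ps0 d L) :=
  theta_eq d (slab d L) p

open Pool.Agent.Y990.CB in
lemma pc_univ (d : ℕ) : pc d univ = Pool.Agent.Y990.CB.pc (siteM d) := by
  show sSup {t : ℝ | ∃ q : unitInterval, (q : ℝ) = t ∧ theta d univ q = 0} =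
    sSup {x : ℝ | ∃ q : unitInterval, (q : ℝ) = x ∧ th (siteM d) q = 0}
  simp only [theta_univ]

open Pool.Agent.Y990.CB in
lemma theta_zero {d : ℕ} (R : Set (V d)) : theta d R 0 = 0 := by
  have h1 : theta d R 0 ≤ th (siteM d) 0 := by
    rw [theta_eq]
    refine measureReal_mono ?_ (measure_ne_top _ _)
    intro ω hω
    exact Set.Infinite.mono (cl_mono (fun _ h => h) (subset_univ R) 0) hω
  have h2 : th (siteM d) 0 = 0 := th_zero (siteM d) nd_site
  rw [h2] at h1
  exact le_antisymm h1 measureReal_nonneg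

/-- **The critical points of slabs.**  For every `d ≥ 3` there is a constant `C > 0` such that

* for all `p > p_c` and all `L` with `log L ≥ C log (2 / (p - p_c)) / (p - p_c)` the percolation
  probability of the slab `Z^2 × [-L, L]^(d - 2)` at `p` is at least `θ(p) / C > 0`;
* for all `L ≥ 3` the critical point of the slab `Z^2 × [-L, L]^(d - 2)` is between `p_c` and
  `p_c + C log log L / log L`. -/
theorem result (d : ℕ) (hd : 3 ≤ d) : ∃ C : ℝ, 0 < C ∧
    (∀ p : unitInterval, pc d univ < p → ∀ L : ℕ,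
      C * Real.log (2 / ((p : ℝ) - pc d univ)) / ((p : ℝ) - pc d univ) ≤ Real.log L →
      0 < theta d univ p ∧ theta d univ p ≤ C * theta d (slab d L) p) ∧
    ∀ L : ℕ, 3 ≤ L → pc d univ ≤ pc d (slab d L) ∧
      pc d (slab d L) ≤ pc d univ + C * Real.log (Real.log L) / Real.log L := by
  obtain ⟨C1, hC1, h1⟩ := Pool.Agent.V8H98.PN.slab_all hd
  obtain ⟨C2, hC2, h2⟩ := Pool.Agent.V8H98.PN.slab_pc hd
  refine ⟨C1 + C2, by linarith, ?_, ?_⟩
  · intro p hp L hL
    rw [pc_univ] at hp hL
    have hlog : 0 ≤ Real.log (2 / ((p : ℝ) - Pool.Agent.Y990.CB.pc (Pool.Agent.Y990.CB.siteM d))) := by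
      apply Real.log_nonneg
      rw [le_div_iff₀ (by linarith)]
      have h3 := p.2.2
      have h4 := (Pool.Agent.Y990.CB.pc (Pool.Agent.Y990.CB.siteM d)).2.1
      linarith
    have h3 := h1 p hp L (by
      refine le_trans ?_ hL
      apply div_le_div_of_nonneg_right _ (by linarith)
      exact mul_le_mul_of_nonneg_right (by linarith) hlog)
    have h4 := Pool.Agent.V8H98.PS.th_above hp
    rw [theta_univ, theta_slab]
    have h5 : 0 ≤ (Pool.Agent.R959.GF.ms d p).real (Pool.Agent.V8H98.PN.Ps0 d L) :=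
      measureReal_nonneg
    exact ⟨h4, h3.trans (mul_le_mul_of_nonneg_right (by linarith) h5)⟩
  · intro L hL
    have hL3 : (3 : ℝ) ≤ L := by exact_mod_cast hL
    have hℓ : 1 ≤ Real.log L := by
      have h3 : Real.log (Real.exp 1) ≤ Real.log L := by
        apply Real.log_le_log (Real.exp_pos 1)
        have := Real.exp_one_lt_d9
        linarith
      rwa [Real.log_exp] at h3
    have hll : 0 ≤ Real.log (Real.log L) := Real.log_nonneg hℓ
    constructor
    · apply csSup_le
      · exact ⟨0, 0, rfl, theta_zero univ⟩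
      · rintro t ⟨q, rfl, hq⟩
        apply le_csSup
        · exact ⟨1, by rintro x ⟨q, rfl, _⟩; exact q.2.2⟩
        · refine ⟨q, rfl, le_antisymm ?_ measureReal_nonneg⟩
          rw [← hq, theta_eq, theta_eq]
          refine measureReal_mono ?_ (measure_ne_top _ _)
          intro ω hω
          exact Set.Infinite.mono
            (Pool.Agent.Y990.CB.cl_mono (fun _ h => h) (subset_univ (slab d L)) 0) hω
    · apply csSup_le
      · exact ⟨0, 0, rfl, theta_zero (slab d L)⟩
      · rintro t ⟨q, rfl, hq⟩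
        rw [theta_slab] at hq
        have h3 := h2 L q hL hq
        rw [pc_univ]
        refine h3.trans ?_
        have h4 : C2 * Real.log (Real.log L) / Real.log L ≤
            (C1 + C2) * Real.log (Real.log L) / Real.log L := by
          apply div_le_div_of_nonneg_right _ (by linarith)
          exact mul_le_mul_of_nonneg_right (by linarith) hll
        linarith

end

end Pool.Agent.Results.MP_e13933_pr.SlabCriticalPoint
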